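import Mathlib
import Pool.Agent.helper18.Rot.SymDefs2

/-!
# Sums over the group of sheets, the functions `tauv`, `Pxi`
-/

open Topology Filter Set

namespace Pool.Agent.helper77.Rot

open Pool.Agent.helper18.Rot Pool.Agent.helper18.Rot.Sym

theorem sum_Ga (f : Ga → ℝ) : ∑ g, f g = f 0 + f ![0, 1] + f ![0, 2] + f ![1, 0] + f ![1, 1]
    + f ![1, 2] + f ![2, 0] + f ![2, 1] + f ![2, 2] := by
  have h0 : (0 : Ga) = ![0, 0] := by decide
  rw [h0, ← (finTwoArrowEquiv (ZMod 3)).symm.sum_comp, Fintype.sum_prod_type]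
  have h3 : ∀ F : ZMod 3 → ℝ, ∑ x, F x = F 0 + F 1 + F 2 := fun F => Fin.sum_univ_three F
  simp only [h3]
  simp only [finTwoArrowEquiv_symm_apply]
  ring

theorem sum_tauv (ξ : ℝ) (f : Ga → ℝ) : ∑ g, tauv ξ g * f g =
    f 0 / 2 + ξ / 12 * (f ![1, 0] + f ![2, 0]) + (3 - ξ) / 12 * (f ![0, 1] + f ![0, 2]) := by
  rw [sum_Ga]
  have e0 : tauv ξ 0 = 1 / 2 := by simp [tauv]
  have e1 : tauv ξ ![0, 1] = (3 - ξ) / 12 := by
    rw [tauv, if_neg (by decide), if_neg (by decide), if_pos (by decide)]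
  have e2 : tauv ξ ![0, 2] = (3 - ξ) / 12 := by
    rw [tauv, if_neg (by decide), if_neg (by decide), if_pos (by decide)]
  have e3 : tauv ξ ![1, 0] = ξ / 12 := by
    rw [tauv, if_neg (by decide), if_pos (by decide)]
  have e4 : tauv ξ ![2, 0] = ξ / 12 := by
    rw [tauv, if_neg (by decide), if_pos (by decide)]
  have e5 : tauv ξ ![1, 1] = 0 := by
    rw [tauv, if_neg (by decide), if_neg (by decide), if_neg (by decide)]
  have e6 : tauv ξ ![1, 2] = 0 := by
    rw [tauv, if_neg (by decide), if_neg (by decide), if_neg (by decide)]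
  have e7 : tauv ξ ![2, 1] = 0 := by
    rw [tauv, if_neg (by decide), if_neg (by decide), if_neg (by decide)]
  have e8 : tauv ξ ![2, 2] = 0 := by
    rw [tauv, if_neg (by decide), if_neg (by decide), if_neg (by decide)]
  rw [e0, e1, e2, e3, e4, e5, e6, e7, e8]
  ring

theorem Pxi_eq (θ : Ga → ℝ) (ξ : ℝ) (g : Ga) : Pxi θ ξ g =
    θ g / 2 + ξ / 12 * (θ (g - ![1, 0]) + θ (g - ![2, 0]))
      + (3 - ξ) / 12 * (θ (g - ![0, 1]) + θ (g - ![0, 2])) := by
  rw [Pxi, sum_tauv ξ fun g' => θ (g - g')]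
  simp

theorem sum_mod3 (ψ : ZMod 3 → ℝ) (m : ℕ) :
    ∑ i ∈ Finset.range (3 * m), ψ ((i + 1 : ℕ) : ZMod 3) = m * (ψ 0 + ψ 1 + ψ 2) := by
  induction m with
  | zero => simp
  | succ m ih =>
    have h3 : ((3 : ℕ) : ZMod 3) = 0 := by decide
    rw [show 3 * (m + 1) = 3 * m + 1 + 1 + 1 by ring, Finset.sum_range_succ,
      Finset.sum_range_succ, Finset.sum_range_succ, ih]
    have e1 : ((3 * m + 1 : ℕ) : ZMod 3) = 1 := by
      push_cast; have : (3 : ZMod 3) = 0 := by decide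
      rw [this]; ring
    have e2 : ((3 * m + 1 + 1 : ℕ) : ZMod 3) = 2 := by
      push_cast; have : (3 : ZMod 3) = 0 := by decide
      rw [this]; ring
    have e3 : ((3 * m + 1 + 1 + 1 : ℕ) : ZMod 3) = 0 := by
      push_cast; have : (3 : ZMod 3) = 0 := by decide
      rw [this]; ring_nf; decide
    rw [e1, e2, e3]
    push_cast
    ring

end Pool.Agent.helper77.Rot
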