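import Mathlib
import Pool.Agent.helper77.Rot.Conv
import Pool.Agent.helper54.Rot.Comb
import Pool.Agent.helper61.Rot.Block

/-!
# The lower bound: windows with the ideal distribution
-/

open Topology Filter Set

namespace Pool.Agent.helper77.Rot

open Pool.Agent.helper18.Rot Pool.Agent.helper18.Rot.Sym
open Pool.Agent.helper54.Rot (HH_eq gR_lt Lb_eq len_of_ne len_succ_three len_pos tm_eq)
open Pool.Agent.helper61.Rot (typ_tower typ_half block_mid Cnt_eq_cw cw_shift cw_add)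

theorem gB_three (k : ℕ) : gB k 3 = 3 * mA k + ml k := by
  simp [gB]

theorem gR_three (k : ℕ) : gR k 3 = 3 * mA k + ml k + 3 * mB k := by
  simp [gR]

theorem nt_three (k : ℕ) : nt k 3 = NN k := by
  rw [nt, if_neg (by decide)]

theorem HH_lt (k : ℕ) : HH k + 2 ≤ NN k := by
  have h := (gR_lt k 3).1
  nlinarith [Nat.zero_le (HH k), Nat.zero_le k, sq_nonneg (k : ℤ)]

theorem HH_pos (k : ℕ) : 0 < HH k := by
  rw [HH_eq]
  have : 0 < jj k := by simp [jj]
  positivity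

/-- average of a function over the labels in the event zone -/
theorem sum_Lb (k : ℕ) (φ : Ga → ℝ) :
    ∑ i ∈ Finset.range (HH k), φ (Lb k 3 (i + 1)) =
      (mA k + ml k + mB k) * φ 0 + mA k * (φ ![1, 0] + φ ![2, 0])
        + mB k * (φ ![0, 1] + φ ![0, 2]) := by
  have hN := HH_lt k
  have hnt := nt_three k
  have hH : HH k = 3 * mA k + (ml k + 3 * mB k) := by rw [HH]; ring
  have z00 : (![0, 0] : Ga) = 0 := by decide
  have c3 : ∀ n : ℕ, ((3 * n : ℕ) : ZMod 3) = 0 := by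
    intro n
    push_cast
    have : (3 : ZMod 3) = 0 := by decide
    rw [this, zero_mul]
  have key : ∀ i < HH k, Lb k 3 (i + 1) = ![((min (i + 1) (3 * mA k) : ℕ) : ZMod 3),
      ((min (i + 1) (HH k) - (3 * mA k + ml k) : ℕ) : ZMod 3)] := by
    intro i hi
    rw [Lb_eq k 3 (by omega), gB_three, gR_three]
    simp [eA, HH]
  rw [hH, Finset.sum_range_add, Finset.sum_range_add]
  have s1 : ∑ x ∈ Finset.range (3 * mA k), φ (Lb k 3 (x + 1)) =
      mA k * (φ 0 + φ ![1, 0] + φ ![2, 0]) := by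
    have : ∀ x ∈ Finset.range (3 * mA k), φ (Lb k 3 (x + 1)) =
        (fun z : ZMod 3 => φ ![z, 0]) ((x + 1 : ℕ) : ZMod 3) := by
      intro x hx
      have hx := Finset.mem_range.1 hx
      rw [key x (by omega)]
      have h1 : min (x + 1) (3 * mA k) = x + 1 := by omega
      have h2 : min (x + 1) (HH k) - (3 * mA k + ml k) = 0 := by omega
      rw [h1, h2]
      simp
    rw [Finset.sum_congr rfl this, sum_mod3 (fun z : ZMod 3 => φ ![z, 0]) (mA k), z00]
  have s2 : ∑ x ∈ Finset.range (ml k), φ (Lb k 3 (3 * mA k + x + 1)) = ml k * φ 0 := by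
    have : ∀ x ∈ Finset.range (ml k), φ (Lb k 3 (3 * mA k + x + 1)) = φ 0 := by
      intro x hx
      have hx := Finset.mem_range.1 hx
      rw [key (3 * mA k + x) (by omega)]
      have h1 : min (3 * mA k + x + 1) (3 * mA k) = 3 * mA k := by omega
      have h2 : min (3 * mA k + x + 1) (HH k) - (3 * mA k + ml k) = 0 := by omega
      rw [h1, h2, c3, Nat.cast_zero, z00]
    rw [Finset.sum_congr rfl this]
    simp
  have s3 : ∑ x ∈ Finset.range (3 * mB k), φ (Lb k 3 (3 * mA k + (ml k + x) + 1)) =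
      mB k * (φ 0 + φ ![0, 1] + φ ![0, 2]) := by
    have : ∀ x ∈ Finset.range (3 * mB k), φ (Lb k 3 (3 * mA k + (ml k + x) + 1)) =
        (fun z : ZMod 3 => φ ![0, z]) ((x + 1 : ℕ) : ZMod 3) := by
      intro x hx
      have hx := Finset.mem_range.1 hx
      rw [key (3 * mA k + (ml k + x)) (by omega)]
      have h1 : min (3 * mA k + (ml k + x) + 1) (3 * mA k) = 3 * mA k := by omega
      have h2 : min (3 * mA k + (ml k + x) + 1) (HH k) - (3 * mA k + ml k) = x + 1 := by omega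
      rw [h1, h2, c3]
    rw [Finset.sum_congr rfl this, sum_mod3 (fun z : ZMod 3 => φ ![0, z]) (mB k), z00]
  rw [s1, s2, s3]
  ring

theorem sum_Lb_Pxi (k : ℕ) (θ : Ga → ℝ) (g : Ga) :
    ∑ i ∈ Finset.range (HH k), θ (g - Lb k 3 (i + 1)) = HH k * Pxi θ (1 + 1 / jj k) g := by
  have hj : 0 < jj k := by simp [jj]
  have hj' : (jj k : ℝ) ≠ 0 := by positivity
  rw [sum_Lb k fun u => θ (g - u), Pxi_eq, HH_eq]
  have hB : (mB k : ℝ) = (2 * jj k - 1) * (k + 1) := by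
    rw [mB]
    push_cast [Nat.cast_sub (by omega : 1 ≤ 2 * jj k)]
    ring
  have hA : (mA k : ℝ) = (jj k + 1) * (k + 1) := by rw [mA]; push_cast; ring
  have hl : (ml k : ℝ) = 3 * jj k * (k + 1) := by rw [ml]; push_cast; ring
  rw [hB, hA, hl, sub_zero]
  push_cast
  field_simp
  ring

/-- telescoping of windows -/
theorem cw_tm (P : Par) (x : ℝ) (k : ℕ) (n : ℕ) (g : Ga) :
    cw P x 0 (tm k 3 n) g = ∑ i ∈ Finset.range n, cw P x (tm k 3 i) (tm k 3 (i + 1)) g := by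
  induction n with
  | zero => simp [tm, cw]
  | succ n ih =>
    rw [Finset.sum_range_succ, ← ih, ← cw_add P x (Nat.zero_le _)]
    rw [tm, tm, Finset.sum_range_succ]
    omega

theorem lb_window (E : Data) {θ : Ga → ℝ} {C : ℝ} {ε : ℕ → ℝ}
    (heq : ∀ (k : ℕ) (y : ℝ), 0 ≤ y → y < 1 → ∀ p q : ℕ, p ≤ q → q ≤ len k (E.typ k y) →
        dev E.par θ (E.w k * y) p q (ph (E.typ k y)) ≤ ε k * ((q : ℝ) - p) + C * EE k)
    (k : ℕ) (g : Ga) {i : ℕ} (hi : i < HH k) :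
    |(cw E.par (E.w (k + 1) * (1 / 2)) (tm k 3 i) (tm k 3 (i + 1)) g : ℝ) -
      len k 3 * θ (g - Lb k 3 (i + 1))| ≤ ε k * len k 3 + C * EE k := by
  have hN := HH_lt k
  have hnt := nt_three k
  have ht : E.typ (k + 1) (1 / 2) = 3 := typ_half E (k + 1)
  have hin : i < nt k (E.typ (k + 1) (1 / 2)) := by rw [ht]; omega
  obtain ⟨y0, y1, hty, -, -⟩ := typ_tower E k (y := 1 / 2) (by norm_num) (by norm_num) hin
  obtain ⟨horb, hLab⟩ := block_mid E k (y := 1 / 2) (by norm_num) (by norm_num) hin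
  rw [ht] at horb hLab hty
  have hne : sub k 3 i ≠ 4 := by
    have h1 : i + 1 < nt k 3 := by omega
    rw [sub]
    split_ifs <;> decide
  have hlen : len k (sub k 3 i) = len k 3 := len_of_ne k hne
  have e1 : cw E.par (E.w (k + 1) * (1 / 2)) (tm k 3 i) (tm k 3 (i + 1)) g =
      cw E.par (E.w k * ((1 / 2 + i) * E.al k)) 0 (len k 3) (g - Lb k 3 i) := by
    have h := cw_shift E.par (E.w (k + 1) * (1 / 2)) (tm k 3 i) 0 (len k 3) g
    rw [horb, hLab] at h
    rw [← h, add_zero]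
    congr 1
    rw [tm, tm, Finset.sum_range_succ, hlen]
  have h := heq k _ y0 y1 0 (len k 3) (Nat.zero_le _) (by rw [hty, hlen])
  rw [hty, dev] at h
  have hs := Finset.single_le_sum (f := fun g' => |(cw E.par (E.w k * ((1 / 2 + i) * E.al k)) 0
      (len k 3) g' : ℝ) - ((len k 3 : ℝ) - (0 : ℕ)) * θ (g' - ph (sub k 3 i))|)
      (fun _ _ => abs_nonneg _) (Finset.mem_univ (g - Lb k 3 i))
  have hs2 := hs.trans h
  simp only [Nat.cast_zero, sub_zero] at hs2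
  rw [e1]
  have hL : Lb k 3 (i + 1) = Lb k 3 i + ph (sub k 3 i) := by
    rw [Lb, Lb, Finset.sum_range_succ]
  rw [hL, ← sub_sub]
  exact hs2

theorem lb_level (E : Data) {θ : Ga → ℝ} {C : ℝ} {ε : ℕ → ℝ}
    (heq : ∀ (k : ℕ) (y : ℝ), 0 ≤ y → y < 1 → ∀ p q : ℕ, p ≤ q → q ≤ len k (E.typ k y) →
        dev E.par θ (E.w k * y) p q (ph (E.typ k y)) ≤ ε k * ((q : ℝ) - p) + C * EE k)
    (k : ℕ) (g : Ga) :
    |(E.par.Cnt (E.w (k + 1) * (1 / 2)) (HH k * len k 3) g : ℝ) / (HH k * len k 3 : ℕ) -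
      Pxi θ (1 + 1 / jj k) g| ≤ ε k + C * (EE k / len k 3) := by
  have hN := HH_lt k
  have hnt := nt_three k
  have hH : (0 : ℝ) < HH k := by exact_mod_cast HH_pos k
  have hl : (0 : ℝ) < len k 3 := by exact_mod_cast len_pos k 3
  have htm : tm k 3 (HH k) = HH k * len k 3 := tm_eq k 3 (by omega)
  have e1 : (E.par.Cnt (E.w (k + 1) * (1 / 2)) (HH k * len k 3) g : ℝ) =
      ∑ i ∈ Finset.range (HH k),
        (cw E.par (E.w (k + 1) * (1 / 2)) (tm k 3 i) (tm k 3 (i + 1)) g : ℝ) := by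
    rw [← htm, Cnt_eq_cw, cw_tm]
    push_cast
    rfl
  have e2 : (HH k * len k 3 : ℝ) * Pxi θ (1 + 1 / jj k) g =
      ∑ i ∈ Finset.range (HH k), len k 3 * θ (g - Lb k 3 (i + 1)) := by
    rw [← Finset.mul_sum, sum_Lb_Pxi]
    ring
  have hb : |(E.par.Cnt (E.w (k + 1) * (1 / 2)) (HH k * len k 3) g : ℝ) -
      (HH k * len k 3 : ℝ) * Pxi θ (1 + 1 / jj k) g| ≤ HH k * (ε k * len k 3 + C * EE k) := by
    rw [e1, e2, ← Finset.sum_sub_distrib]
    refine (Finset.abs_sum_le_sum_abs _ _).trans ?_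
    refine (Finset.sum_le_sum fun i hi => lb_window E heq k g (Finset.mem_range.1 hi)).trans ?_
    rw [Finset.sum_const, Finset.card_range, nsmul_eq_mul]
  have hpos : (0 : ℝ) < HH k * len k 3 := by positivity
  have e3 : (E.par.Cnt (E.w (k + 1) * (1 / 2)) (HH k * len k 3) g : ℝ) / (HH k * len k 3 : ℕ) -
      Pxi θ (1 + 1 / jj k) g = ((E.par.Cnt (E.w (k + 1) * (1 / 2)) (HH k * len k 3) g : ℝ) -
      (HH k * len k 3 : ℝ) * Pxi θ (1 + 1 / jj k) g) / (HH k * len k 3) := by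
    push_cast
    field_simp
  rw [e3, abs_div, abs_of_pos hpos, div_le_iff₀ hpos]
  refine hb.trans (le_of_eq ?_)
  field_simp

theorem div_le_one_div_of {e M n : ℕ} (hM : 0 < M) (hn : 0 < n) (h : e * n ≤ M) :
    (e : ℝ) / M ≤ 1 / (n : ℝ) := by
  rw [div_le_div_iff₀ (Nat.cast_pos.2 hM) (Nat.cast_pos.2 hn), one_mul]
  exact_mod_cast h

/-- the event zone of the previous level is short -/
theorem EE_ratio : Tendsto (fun k : ℕ => (EE k : ℝ) / len k 3) atTop (𝓝 0) := by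
  rw [← tendsto_add_atTop_iff_nat 1]
  have h0 : Tendsto (fun k : ℕ => (1 : ℝ) / (k + 1 : ℕ)) atTop (𝓝 0) := by
    have := tendsto_one_div_add_atTop_nhds_zero_nat (𝕜 := ℝ)
    refine this.congr fun k => ?_
    push_cast; rfl
  refine squeeze_zero (fun k => by positivity) (fun k => ?_) h0
  have hg := (gR_lt k 3).1
  have hH := HH_pos k
  have hl : 0 < len k 3 := len_pos k 3
  have hl1 : 0 < len (k + 1) 3 := len_pos (k + 1) 3
  refine div_le_one_div_of hl1 (Nat.succ_pos k) ?_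
  have e1 := len_succ_three k
  have hN : (k + 1) * HH k ≤ NN k - 1 := by
    have ha : k + 1 ≤ (k + 1) ^ 2 := by nlinarith
    have hb := Nat.mul_le_mul_right (HH k) ha
    have hc : 1 ≤ (k + 1) ^ 2 := le_trans (by omega) ha
    have hd : (k + 1) * HH k + 1 ≤ 8 * (k + 1) ^ 2 * (HH k + 2) := by
      calc (k + 1) * HH k + 1 ≤ (k + 1) ^ 2 * HH k + (k + 1) ^ 2 := Nat.add_le_add hb hc
        _ ≤ 8 * (k + 1) ^ 2 * (HH k + 2) := by ring_nf; omega
    omega
  rw [e1, EE]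
  calc HH k * len k 3 * (k + 1) = ((k + 1) * HH k) * len k 3 := by ring
    _ ≤ (NN k - 1) * len k 3 := Nat.mul_le_mul_right _ hN
    _ ≤ _ := Nat.le_add_right _ _

theorem lb (E : Data) {θ : Ga → ℝ} (hθ0 : ∀ g, 0 ≤ θ g) (hθ1 : ∑ g, θ g = 1)
    {C : ℝ} (hC : 0 ≤ C) {ε : ℕ → ℝ} (hε0 : ∀ k, 0 ≤ ε k) (hε : Tendsto ε atTop (𝓝 0))
    (heq : ∀ (k : ℕ) (y : ℝ), 0 ≤ y → y < 1 → ∀ p q : ℕ, p ≤ q → q ≤ len k (E.typ k y) →
        dev E.par θ (E.w k * y) p q (ph (E.typ k y)) ≤ ε k * ((q : ℝ) - p) + C * EE k)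
    (j : ℕ) (hj : 1 ≤ j) (κ : ℕ → ℕ) (hκ : Tendsto κ atTop atTop) (hκj : ∀ i, jj (κ i) = j) (g : Ga) :
    Tendsto (fun i => (E.par.Cnt (E.w (κ i + 1) * (1 / 2)) (HH (κ i) * len (κ i) 3) g : ℝ) /
      (HH (κ i) * len (κ i) 3 : ℕ)) atTop (𝓝 (Pxi θ (1 + 1 / j) g)) := by
  have h0 : Tendsto (fun k => ε k + C * ((EE k : ℝ) / len k 3)) atTop (𝓝 0) := by
    have := hε.add (EE_ratio.const_mul C)
    simpa using this
  have h1 := h0.comp hκ
  rw [tendsto_iff_norm_sub_tendsto_zero]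
  refine squeeze_zero (fun i => norm_nonneg _) (fun i => ?_) h1
  have h := lb_level E heq (κ i) g
  rw [hκj i] at h
  exact h

end Pool.Agent.helper77.Rot
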