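import Mathlib
import Pool.Agent.helper77.Rot.Conv
import Pool.Agent.helper54.Rot.Comb
import Pool.Agent.helper18.Rot.Coarse

/-!
# The upper bound: possible directions
-/

open Topology Filter Set

namespace Pool.Agent.helper77.Rot

open Pool.Agent.helper18.Rot Pool.Agent.helper18.Rot.Sym
open Pool.Agent.helper54.Rot (HH_eq len_pos)

/-- convolution with `θ` -/
noncomputable def cv (θ u : Ga → ℝ) (g : Ga) : ℝ := ∑ g', u g' * θ (g - g')

theorem cv_sub (θ u v : Ga → ℝ) (g : Ga) :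
    cv θ (fun h => u h - v h) g = cv θ u g - cv θ v g := by
  simp only [cv, ← Finset.sum_sub_distrib]
  exact Finset.sum_congr rfl fun _ _ => by ring

theorem sum_abs_le_cv {θ : Ga → ℝ} (hθ2 : ∑ g, |θ g - if g = 0 then 1 else 0| ≤ 1 / 2)
    (u : Ga → ℝ) : ∑ g, |u g| ≤ 2 * ∑ g, |cv θ u g| := by
  set dd : Ga → ℝ := fun g => θ g - if g = 0 then 1 else 0 with hdd
  have h1 : ∀ g, cv θ u g = u g + cv dd u g := by
    intro g
    have : ∀ g', u g' * θ (g - g') = (if g' = g then u g' else 0) + u g' * dd (g - g') := by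
      intro g'
      simp only [hdd]
      by_cases h : g' = g
      · subst h; simp; ring
      · have h' : g - g' ≠ 0 := fun e => h (sub_eq_zero.1 e).symm
        simp [h, h']
    rw [cv, Finset.sum_congr rfl fun g' _ => this g', Finset.sum_add_distrib]
    simp [cv]
  have h2 : ∑ g, |cv dd u g| ≤ 1 / 2 * ∑ g, |u g| := by
    calc ∑ g, |cv dd u g| ≤ ∑ g, ∑ g', |u g'| * |dd (g - g')| := by
          refine Finset.sum_le_sum fun g _ => ?_
          rw [cv]
          refine (Finset.abs_sum_le_sum_abs _ _).trans (le_of_eq ?_)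
          exact Finset.sum_congr rfl fun _ _ => abs_mul _ _
      _ = ∑ g', |u g'| * ∑ g, |dd (g - g')| := by
          rw [Finset.sum_comm]
          exact Finset.sum_congr rfl fun g' _ => (Finset.mul_sum _ _ _).symm
      _ = ∑ g', |u g'| * ∑ g, |dd g| := by
          refine Finset.sum_congr rfl fun g' _ => ?_
          rw [← (Equiv.subRight g').sum_comp (fun g => |dd g|)]
          rfl
      _ ≤ ∑ g', |u g'| * (1 / 2) :=
          Finset.sum_le_sum fun g' _ => mul_le_mul_of_nonneg_left hθ2 (abs_nonneg _)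
      _ = _ := by rw [← Finset.sum_mul]; ring
  have h3 : ∑ g, |u g| ≤ ∑ g, |cv θ u g| + ∑ g, |cv dd u g| := by
    rw [← Finset.sum_add_distrib]
    refine Finset.sum_le_sum fun g _ => ?_
    have : u g = cv θ u g - cv dd u g := by rw [h1]; ring
    rw [this]
    exact abs_sub _ _
  linarith

theorem cv_shift (θ T : Ga → ℝ) (s g : Ga) :
    ∑ g', T g' * θ (g - s - g') = cv θ (fun h => T (h - s)) g := by
  rw [cv, ← (Equiv.subRight s).sum_comp (fun g' => T g' * θ (g - s - g'))]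
  refine Finset.sum_congr rfl fun g' _ => ?_
  simp only [Equiv.subRight_apply]
  congr 2
  abel

theorem EE_pos (k : ℕ) : 0 < EE k := by
  cases k with
  | zero => simp [EE]
  | succ k =>
    rw [EE]
    have h1 : 0 < HH k := by
      rw [HH_eq]
      have : 0 < jj k := by simp [jj]
      positivity
    exact Nat.mul_pos h1 (len_pos k 3)

theorem exists_kk (L : ℕ) (hL : EE 1 ≤ L) : ∃ k, 1 ≤ k ∧ k ^ 2 * EE k ≤ L ∧
    L ≤ (k + 1) ^ 2 * EE (k + 1) ∧ ∀ K, (∀ m < K, (m + 1) ^ 2 * EE (m + 1) ≤ L) → K ≤ k := by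
  classical
  have hex : ∃ k, L < (k + 1) ^ 2 * EE (k + 1) := by
    refine ⟨L, ?_⟩
    have h1 := EE_pos (L + 1)
    have h2 : L + 1 ≤ (L + 1) ^ 2 := by nlinarith
    calc L < L + 1 := Nat.lt_succ_self L
      _ ≤ (L + 1) ^ 2 * 1 := by rw [mul_one]; exact h2
      _ ≤ _ := Nat.mul_le_mul_left _ h1
  have hs := Nat.find_spec hex
  have hm := fun m (h : m < Nat.find hex) => Nat.find_min hex h
  set k := Nat.find hex with hk
  have hk0 : 1 ≤ k := by
    rcases Nat.eq_zero_or_pos k with h | h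
    · rw [h] at hs
      simp at hs
      omega
    · exact h
  refine ⟨k, hk0, ?_, hs.le, ?_⟩
  · have h := hm (k - 1) (by omega)
    rw [Nat.sub_add_cancel hk0] at h
    omega
  · intro K hK
    by_contra hc
    have := hK k (by omega)
    omega

theorem tendsto_kk {L k : ℕ → ℕ} (hL : Tendsto L atTop atTop)
    (hk : ∀ᶠ i in atTop, ∀ K, (∀ m < K, (m + 1) ^ 2 * EE (m + 1) ≤ L i) → K ≤ k i) :
    Tendsto k atTop atTop := by
  rw [tendsto_atTop]
  intro K
  have h1 : ∀ᶠ i in atTop, ∀ m < K, (m + 1) ^ 2 * EE (m + 1) ≤ L i := by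
    have : ∀ m ∈ Finset.range K, ∀ᶠ i in atTop, (m + 1) ^ 2 * EE (m + 1) ≤ L i :=
      fun m _ => hL.eventually_ge_atTop _
    filter_upwards [(Filter.eventually_all_finset _).2 this] with i hi m hm
    exact hi m (Finset.mem_range.2 hm)
  filter_upwards [h1, hk] with i h1 h2
  exact h2 K h1

/-- the numerical part of the argument -/
theorem numeric {ξ : ℝ} {k : ℕ → ℕ} (hk : Tendsto k atTop atTop) {a b z lam : ℕ → ℝ}
    (ha : Tendsto a atTop (𝓝 (ξ / 12))) (hb : Tendsto b atTop (𝓝 ((3 - ξ) / 12)))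
    (hz : Tendsto z atTop (𝓝 (1 / 2)))
    (hlam : ∀ᶠ i in atTop, 0 ≤ lam i)
    (h : ∀ᶠ i in atTop, a i ≤ (mA (k i) + 1) * lam i ∧ b i ≤ (mB (k i) + 1) * lam i ∧
      a i + b i + (ml (k i) - 1) * lam i ≤ z i ∧ (ml (k i) : ℝ) * lam i ≤ 1) :
    ξ = 1 ∨ ∃ j : ℕ, 1 ≤ j ∧ ξ = 1 + 1 / j := by
  -- `lam → 0`
  have hl0 : Tendsto lam atTop (𝓝 0) := by
    have h0 : Tendsto (fun i => (1 : ℝ) / ((k i : ℝ) + 1)) atTop (𝓝 0) :=
      (tendsto_one_div_add_atTop_nhds_zero_nat (𝕜 := ℝ)).comp hk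
    refine squeeze_zero' hlam ?_ h0
    filter_upwards [h, hlam] with i hi hi0
    obtain ⟨-, -, -, h4⟩ := hi
    have hj : (1 : ℝ) ≤ jj (k i) := by
      have : 1 ≤ jj (k i) := by simp [jj]
      exact_mod_cast this
    have hml : (ml (k i) : ℝ) = 3 * jj (k i) * (k i + 1) := by rw [ml]; push_cast; ring
    rw [hml] at h4
    have hk0 : (0 : ℝ) < (k i : ℝ) + 1 := by positivity
    rw [le_div_iff₀ hk0]
    have h5 : ((k i : ℝ) + 1) * lam i ≤ 3 * jj (k i) * (k i + 1) * lam i := by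
      have : 0 ≤ ((k i : ℝ) + 1) * lam i := mul_nonneg hk0.le hi0
      nlinarith
    linarith
  have he : Tendsto (fun i => (z i - a i - b i + lam i) / 3) atTop (𝓝 (1 / 12)) := by
    have := (((hz.sub ha).sub hb).add hl0).div_const 3
    refine this.congr' ?_ |>.trans (le_of_eq ?_)
    · exact Eventually.of_forall fun i => rfl
    · congr 1; ring
  have hA : Tendsto (fun i => (a i - lam i) / ((z i - a i - b i + lam i) / 3) - 1) atTop
      (𝓝 (ξ - 1)) := by
    have := ((ha.sub hl0).div he (by norm_num)).sub_const 1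
    refine this.trans (le_of_eq ?_)
    congr 1; ring
  have hB : Tendsto (fun i => 2 - (b i - lam i) / ((z i - a i - b i + lam i) / 3)) atTop
      (𝓝 (ξ - 1)) := by
    have := ((hb.sub hl0).div he (by norm_num)).const_sub 2
    refine this.trans (le_of_eq ?_)
    congr 1; ring
  have hr : Tendsto (fun i => 1 / (jj (k i) : ℝ)) atTop (𝓝 (ξ - 1)) := by
    have hpos := he.eventually (lt_mem_nhds (show (0 : ℝ) < 1 / 12 by norm_num))
    refine tendsto_of_tendsto_of_tendsto_of_le_of_le' hA hB ?_ ?_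
    · filter_upwards [h, hlam, hpos] with i hi hi0 hp
      obtain ⟨h1, h2, h3, h4⟩ := hi
      have hj : (0 : ℝ) < jj (k i) := by
        have : 0 < jj (k i) := by simp [jj]
        exact_mod_cast this
      have hml : (ml (k i) : ℝ) = 3 * jj (k i) * (k i + 1) := by rw [ml]; push_cast; ring
      have hmA : (mA (k i) : ℝ) = (jj (k i) + 1) * (k i + 1) := by rw [mA]; push_cast; ring
      rw [sub_le_iff_le_add, div_le_iff₀ hp]
      rw [hmA] at h1
      rw [hml] at h3
      have e1 : (1 / (jj (k i) : ℝ) + 1) * ((z i - a i - b i + lam i) / 3) ≥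
          (1 / (jj (k i) : ℝ) + 1) * (jj (k i) * (k i + 1) * lam i) := by
        apply mul_le_mul_of_nonneg_left _ (by positivity)
        linarith
      have e2 : (1 / (jj (k i) : ℝ) + 1) * (jj (k i) * (k i + 1) * lam i) =
          (jj (k i) + 1) * (k i + 1) * lam i := by
        field_simp
        ring
      linarith
    · filter_upwards [h, hlam, hpos] with i hi hi0 hp
      obtain ⟨h1, h2, h3, h4⟩ := hi
      have hj1 : 1 ≤ jj (k i) := by simp [jj]
      have hj : (1 : ℝ) ≤ jj (k i) := by exact_mod_cast hj1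
      have hml : (ml (k i) : ℝ) = 3 * jj (k i) * (k i + 1) := by rw [ml]; push_cast; ring
      have hmB : (mB (k i) : ℝ) = (2 * jj (k i) - 1) * (k i + 1) := by
        rw [mB]
        push_cast [Nat.cast_sub (by omega : 1 ≤ 2 * jj (k i))]
        ring
      rw [le_sub_comm, div_le_iff₀ hp]
      rw [hmB] at h2
      rw [hml] at h3
      have hq : 1 / (jj (k i) : ℝ) ≤ 1 := by
        rw [div_le_one (by linarith)]; exact hj
      have e1 : (2 - 1 / (jj (k i) : ℝ)) * ((z i - a i - b i + lam i) / 3) ≥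
          (2 - 1 / (jj (k i) : ℝ)) * (jj (k i) * (k i + 1) * lam i) := by
        apply mul_le_mul_of_nonneg_left _ (by linarith)
        linarith
      have e2 : (2 - 1 / (jj (k i) : ℝ)) * (jj (k i) * (k i + 1) * lam i) =
          (2 * jj (k i) - 1) * (k i + 1) * lam i := by
        have : (jj (k i) : ℝ) ≠ 0 := by linarith
        field_simp
      linarith
  -- closedness of `{0} ∪ {1/j}`
  have hcl : IsClosed (insert (0 : ℝ) (range fun n : ℕ => 1 / ((n : ℝ) + 1))) :=
    (tendsto_one_div_add_atTop_nhds_zero_nat (𝕜 := ℝ)).isCompact_insert_range.isClosed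
  have hmem : ξ - 1 ∈ insert (0 : ℝ) (range fun n : ℕ => 1 / ((n : ℝ) + 1)) := by
    refine hcl.mem_of_tendsto hr (Eventually.of_forall fun i => Or.inr ⟨jj (k i) - 1, ?_⟩)
    have hj1 : 1 ≤ jj (k i) := by simp [jj]
    simp only
    rw [Nat.cast_sub hj1]
    push_cast
    ring_nf
  rcases hmem with h0 | ⟨n, hn⟩
  · left; linarith
  · right
    refine ⟨n + 1, by omega, ?_⟩
    push_cast
    simp only at hn
    linarith

theorem ub (E : Data) {θ : Ga → ℝ} (hθ0 : ∀ g, 0 ≤ θ g) (hθ1 : ∑ g, θ g = 1)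
    (hθ2 : ∑ g, |θ g - if g = 0 then 1 else 0| ≤ 1 / 2)
    {C : ℝ} (hC : 0 ≤ C) {ε : ℕ → ℝ} (hε0 : ∀ k, 0 ≤ ε k) (hε : Tendsto ε atTop (𝓝 0))
    (heq : ∀ (k : ℕ) (y : ℝ), 0 ≤ y → y < 1 → ∀ p q : ℕ, p ≤ q → q ≤ len k (E.typ k y) →
        dev E.par θ (E.w k * y) p q (ph (E.typ k y)) ≤ ε k * ((q : ℝ) - p) + C * EE k)
    (x : ℕ → ℝ) (s : ℕ → Ga) (L : ℕ → ℕ) (ξ : ℝ) (hx : ∀ i, 0 ≤ x i ∧ x i < 1)
    (hL : Tendsto L atTop atTop) (hξ0 : 0 < ξ) (hξ3 : ξ < 3)
    (h : ∀ g, Tendsto (fun i => (E.par.Cnt (x i) (L i) (g - s i) : ℝ) / L i) atTop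
      (𝓝 (Pxi θ ξ g))) :
    ξ = 1 ∨ ∃ j : ℕ, 1 ≤ j ∧ ξ = 1 + 1 / j := by
  classical
  obtain ⟨η, hη, hco⟩ := coarse E hθ0 hθ1 hC hε0 hε heq
  choose! k hk1 hk2 hk3 hk4 using fun i (h : EE 1 ≤ L i) => exists_kk (L i) h
  have hev : ∀ᶠ i in atTop, EE 1 ≤ L i := hL.eventually_ge_atTop _
  have hk : Tendsto k atTop atTop := tendsto_kk hL (hev.mono fun i hi => hk4 i hi)
  choose! T hT0 hT1 hT2 hT3 using fun i (h : EE 1 ≤ L i) =>
    hco (k i) (hk1 i h) (x i) (hx i).1 (hx i).2 (L i) (hk2 i h) (hk3 i h)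
  have hLpos : ∀ᶠ i in atTop, 0 < L i := hL.eventually_gt_atTop 0
  -- the normalised vectors
  set t : ℕ → Ga → ℝ := fun i g => T i (g - s i) / L i with ht
  have hcv : ∀ g, Tendsto (fun i => cv θ (fun g' => t i g' - tauv ξ g') g) atTop (𝓝 0) := by
    intro g
    have hd : Tendsto (fun i => cv θ (t i) g - (E.par.Cnt (x i) (L i) (g - s i) : ℝ) / L i)
        atTop (𝓝 0) := by
      rw [tendsto_zero_iff_norm_tendsto_zero]
      refine squeeze_zero' (Eventually.of_forall fun i => norm_nonneg _) ?_ (hη.comp hk)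
      filter_upwards [hev, hLpos] with i hi hi0
      have hi0' : (0 : ℝ) < L i := by exact_mod_cast hi0
      have h2 := hT2 i hi
      have h3 := (Finset.single_le_sum (f := fun g => |(E.par.Cnt (x i) (L i) g : ℝ) -
        ∑ g', T i g' * θ (g - g')|) (fun _ _ => abs_nonneg _) (Finset.mem_univ (g - s i))).trans h2
      rw [cv_shift] at h3
      have e : cv θ (t i) g = cv θ (fun h => T i (h - s i)) g / L i := by
        simp only [cv, ht, Finset.sum_div]
        exact Finset.sum_congr rfl fun _ _ => by ring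
      rw [e, ← sub_div, norm_div, Real.norm_eq_abs, abs_sub_comm, Real.norm_eq_abs,
        abs_of_pos hi0', div_le_iff₀ hi0']
      exact h3
    have h4 := hd.add (h g)
    have h5 := h4.sub_const (Pxi θ ξ g)
    rw [zero_add, sub_self] at h5
    refine h5.congr fun i => ?_
    rw [cv_sub]
    simp only [cv, Pxi]
    ring
  have hsum : Tendsto (fun i => 2 * ∑ g, |cv θ (fun g' => t i g' - tauv ξ g') g|) atTop
      (𝓝 0) := by
    have := (tendsto_finsetSum (Finset.univ : Finset Ga) fun g _ => (hcv g).abs).const_mul 2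
    simpa using this
  have htt : ∀ g, Tendsto (fun i => t i g) atTop (𝓝 (tauv ξ g)) := by
    intro g
    rw [tendsto_iff_norm_sub_tendsto_zero]
    refine squeeze_zero (fun i => norm_nonneg _) (fun i => ?_) hsum
    refine le_trans ?_ (sum_abs_le_cv hθ2 fun g' => t i g' - tauv ξ g')
    exact Finset.single_le_sum (f := fun g => |t i g - tauv ξ g|) (fun _ _ => abs_nonneg _)
      (Finset.mem_univ g)
  have e0 : tauv ξ 0 = 1 / 2 := by simp [tauv]
  have e1 : tauv ξ ![0, 1] = (3 - ξ) / 12 := by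
    rw [tauv, if_neg (by decide), if_neg (by decide), if_pos (by decide)]
  have e2 : tauv ξ ![0, 2] = (3 - ξ) / 12 := by
    rw [tauv, if_neg (by decide), if_neg (by decide), if_pos (by decide)]
  have e3 : tauv ξ ![1, 0] = ξ / 12 := by
    rw [tauv, if_neg (by decide), if_pos (by decide)]
  have e4 : tauv ξ ![2, 0] = ξ / 12 := by
    rw [tauv, if_neg (by decide), if_pos (by decide)]
  have p10 := (htt ![1, 0]).eventually (lt_mem_nhds (show 0 < tauv ξ ![1, 0] by rw [e3]; linarith))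
  have p20 := (htt ![2, 0]).eventually (lt_mem_nhds (show 0 < tauv ξ ![2, 0] by rw [e4]; linarith))
  have p01 := (htt ![0, 1]).eventually (lt_mem_nhds (show 0 < tauv ξ ![0, 1] by rw [e1]; linarith))
  have p02 := (htt ![0, 2]).eventually (lt_mem_nhds (show 0 < tauv ξ ![0, 2] by rw [e2]; linarith))
  refine numeric hk (a := fun i => t i ![1, 0]) (b := fun i => t i ![0, 2]) (z := fun i => t i 0)
    (lam := fun i => (len (k i) 3 : ℝ) / L i) (e3 ▸ htt _) (e2 ▸ htt _) (e0 ▸ htt _)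
    (Eventually.of_forall fun i => by positivity) ?_
  filter_upwards [hev, hLpos, p10, p20, p01, p02] with i hi hi0 q10 q20 q01 q02
  have hi0' : (0 : ℝ) < L i := by exact_mod_cast hi0
  have pos : ∀ {u : ℝ}, 0 < u / L i → 0 < u := fun {u} hu => by
    have := mul_pos hu hi0'
    rwa [div_mul_cancel₀ _ hi0'.ne'] at this
  obtain ⟨c1, c2, c3, c4⟩ := hT3 i hi (s i) (pos q10) (pos q20) (pos q01) (pos q02)
  simp only [ht]
  refine ⟨?_, ?_, ?_, ?_⟩
  · rw [← mul_div_assoc]; exact div_le_div_of_nonneg_right c1 hi0'.le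
  · rw [← mul_div_assoc]; exact div_le_div_of_nonneg_right c2 hi0'.le
  · rw [← mul_div_assoc, ← add_div, ← add_div]; exact div_le_div_of_nonneg_right c3 hi0'.le
  · rw [← mul_div_assoc]; exact (div_le_one hi0').2 c4

end Pool.Agent.helper77.Rot
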